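import Pool.Agent.H29.MEMS.Evol

/-!
# Finite-time singularity in the MEMS free boundary model with bending

Notation of the problem: `I = (-1,1)`, `Ω(u) = {(x,z) : x ∈ I, -1 < z < u(x)}`, `ψ_u` solves
`ε² ∂ₓ²ψ + ∂_z²ψ = 0` in `Ω(u)` with `ψ = (1+z)/(1+u(x))` on the boundary,
`g_ε(u)(x) = ε² (∂ₓψ_u(x,u(x)))² + (∂_zψ_u(x,u(x)))²`, and
`γ² ∂ₜ²u + ∂ₜu + β ∂ₓ⁴u - τ ∂ₓ²u = -λ g_ε(u)` with clamped boundary conditions and zero initial
data.  The equation is used in its weak form (tested against `C⁴` functions with compact support in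
`I`), which every smooth solution satisfies; for `γ > 0` the solutions of the local theory are only
weak ones.

The idea of the proof: the weighted force `∫ g_ε(u) w` is bounded below as long as `∫ (1+u) w` is
bounded above.  This follows from a Rellich type identity for the vector field which compares `ψ_u`
with the explicit harmonic function `exp(-επ(1+z)) cos(πx)`, and from `∂_z ψ_u ≥ 0`.
-/

open Set Topology Filter MeasureTheory

namespace Pool.Agent.Results.MP_cdeac6_an.FiniteTimeSingularity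

/-- `Ω(u)` -/
def region (u : ℝ → ℝ) : Set (ℝ × ℝ) := {p | -1 < p.1 ∧ p.1 < 1 ∧ -1 < p.2 ∧ p.2 < u p.1}

/-- the closure of `Ω(u)` -/
def closedRegion (u : ℝ → ℝ) : Set (ℝ × ℝ) := {p | -1 ≤ p.1 ∧ p.1 ≤ 1 ∧ -1 ≤ p.2 ∧ p.2 ≤ u p.1}

/-- `Ω(u)` together with the open top edge, the graph of `u` over `(-1,1)` -/
def regionWithTop (u : ℝ → ℝ) : Set (ℝ × ℝ) := {p | -1 < p.1 ∧ p.1 < 1 ∧ -1 < p.2 ∧ p.2 ≤ u p.1}

/-- `(ε² ∂ₓ²ψ + ∂_z²ψ)(p)` -/
noncomputable def epsLaplacian (ε : ℝ) (ψ : ℝ × ℝ → ℝ) (p : ℝ × ℝ) : ℝ :=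
  ε ^ 2 * deriv (deriv (fun x => ψ (x, p.2))) p.1 + deriv (deriv (fun z => ψ (p.1, z))) p.2

/-- `ψ = ψ_u` is the electrostatic potential of the deflection `u`, and `G` is its gradient
`(∂ₓψ, ∂_zψ)` in `Ω(u)`, extended continuously to the open top edge. -/
structure IsPotential (ε : ℝ) (u : ℝ → ℝ) (ψ : ℝ × ℝ → ℝ) (G : ℝ × ℝ → ℝ × ℝ) : Prop where
  continuousOn : ContinuousOn ψ (closedRegion u)
  smooth : ContDiffOn ℝ 2 ψ (region u)
  equation : ∀ p ∈ region u, epsLaplacian ε ψ p = 0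
  boundary : ∀ p ∈ closedRegion u, p ∉ region u → ψ p = (1 + p.2) / (1 + u p.1)
  gradient : ∀ p ∈ region u,
    G p = (deriv (fun x => ψ (x, p.2)) p.1, deriv (fun z => ψ (p.1, z)) p.2)
  gradient_continuousOn : ContinuousOn G (regionWithTop u)

/-- `g_ε(u)(x) = ε² (∂ₓψ_u(x,u(x)))² + (∂_zψ_u(x,u(x)))²` -/
noncomputable def force (ε : ℝ) (u : ℝ → ℝ) (G : ℝ × ℝ → ℝ × ℝ) (x : ℝ) : ℝ :=
  ε ^ 2 * (G (x, u x)).1 ^ 2 + (G (x, u x)).2 ^ 2

/-- `∫_{-1}^{1} u(t,x) w(x) dx` -/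
noncomputable def moment (u : ℝ → ℝ → ℝ) (w : ℝ → ℝ) (t : ℝ) : ℝ := ∫ x in (-1:ℝ)..1, u t x * w x

/-- `(u, ψ)` is a solution on the time interval `[0,T)` with zero initial data. -/
structure IsSolution (β τ γ ε lam T : ℝ) (u : ℝ → ℝ → ℝ) (ψ : ℝ → ℝ × ℝ → ℝ)
    (G : ℝ → ℝ × ℝ → ℝ × ℝ) : Prop where
  regular : ∀ t ∈ Ico 0 T, ContDiffOn ℝ 1 (u t) (Icc (-1) 1)
  above : ∀ t ∈ Ico 0 T, ∀ x ∈ Icc (-1:ℝ) 1, -1 < u t x
  clamped : ∀ t ∈ Ico 0 T, u t (-1) = 0 ∧ u t 1 = 0 ∧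
    derivWithin (u t) (Icc (-1) 1) (-1) = 0 ∧ derivWithin (u t) (Icc (-1) 1) 1 = 0
  potential : ∀ t ∈ Ico 0 T, IsPotential ε (u t) (ψ t) (G t)
  initial : 0 < T → ∀ x ∈ Icc (-1:ℝ) 1, u 0 x = 0
  evolution : ∀ w : ℝ → ℝ, ContDiff ℝ 4 w → tsupport w ⊆ Ioo (-1) 1 →
    ContinuousOn (moment u w) (Ico 0 T) ∧
    (0 < γ → (∀ t ∈ Ioo 0 T, DifferentiableAt ℝ (moment u w) t) ∧
      Tendsto (deriv (moment u w)) (𝓝[>] 0) (𝓝 0)) ∧
    ∀ t ∈ Ioo 0 T, HasDerivAt (fun s => γ ^ 2 * deriv (moment u w) s + moment u w s)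
      (-(∫ x in (-1:ℝ)..1, u t x * (β * iteratedDeriv 4 w x - τ * iteratedDeriv 2 w x))
        - lam * ∫ x in (-1:ℝ)..1, force ε (u t) (G t) x * w x) t

/-- For all `β > 0`, `τ ≥ 0`, `γ ≥ 0`, `ε > 0` and every `δ > 0` there is `λ_*` such that for every
`λ > λ_*` a solution exists at most on a time interval of length `δ`: the maximal existence time is
finite for large `λ` and tends to zero as `λ → ∞`. -/
theorem result (β τ γ ε : ℝ) (hβ : 0 < β) (hτ : 0 ≤ τ) (hγ : 0 ≤ γ) (hε : 0 < ε) (δ : ℝ)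
    (hδ : 0 < δ) : ∃ lamStar : ℝ, ∀ lam : ℝ, lamStar < lam → ∀ (T : ℝ) (u : ℝ → ℝ → ℝ)
      (ψ : ℝ → ℝ × ℝ → ℝ) (G : ℝ → ℝ × ℝ → ℝ × ℝ), IsSolution β τ γ ε lam T u ψ G → T ≤ δ := by
  obtain ⟨L, hL⟩ := H29.MEMS.main_bound β τ γ ε hβ hτ hγ hε δ hδ
  refine ⟨L, fun lam hlam T u ψ G h => hL lam hlam T u ψ G ?_⟩
  exact ⟨h.regular, h.above, h.clamped,
    fun t ht => ⟨(h.potential t ht).continuousOn, (h.potential t ht).smooth,
      (h.potential t ht).equation, (h.potential t ht).boundary, (h.potential t ht).gradient,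
      (h.potential t ht).gradient_continuousOn⟩,
    h.initial, h.evolution⟩

end Pool.Agent.Results.MP_cdeac6_an.FiniteTimeSingularity
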